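import Pool.Agent.Q134.PDRoute

/-!
# Path-pairable graphs with `5n/3 + O(1)` edges and large diameter

The graph: three hubs `0, 1, 2` (hub `2` joined to the other two), `b` pendant vertices at hub `0`,
`b` pendant vertices at hub `1`, `r ≈ b` relays joined to all three hubs, and the binary tree of
depth `D` whose leaves are joined to the hubs `0` and `1`.

Routing: an inner vertex of the tree goes to its left child and then always to the right, so the paths
of different vertices are edge-disjoint and end in different leaves; it leaves to hub `1`, a leaf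
leaves to hub `0`. Relays and hub `2` leave to the hub of their partner. A pair whose two ends left to
the hubs `0` and `1` passes through a relay which left to hub `2`, or through a relay which left to
hub `1`, hub `2` and a relay which left to hub `0`; a count shows that there are enough relays.
-/

set_option autoImplicit false

open Pool.Agent.Q134.PD

namespace Pool.Agent.Results.MP_74cbe5_co.UnboundedDiameter

/-- For every `D` there is a constant `C` such that for every even `n ≥ C` there is a path-pairable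
graph with `n` vertices, at most `5 n / 3 + C` edges and diameter at least `D`. -/
theorem sparse (D : ℕ) : ∃ C : ℕ, ∀ n : ℕ, C ≤ n → Even n →
    ∃ (V : Type) (_ : Fintype V) (G : SimpleGraph V), Fintype.card V = n ∧ PathPairable G ∧
      3 * G.edgeSet.ncard ≤ 5 * n + C ∧ D ≤ G.diam := by
  refine ⟨18 * Fintype.card (TV D) + 40, fun n hn _ => ?_⟩
  obtain ⟨T, hT⟩ : ∃ T, T = Fintype.card (TV D) := ⟨_, rfl⟩
  rw [← hT] at hn ⊢
  obtain ⟨b, hb⟩ : ∃ b, b = (n - 4 - 2 * T) / 3 := ⟨_, rfl⟩
  obtain ⟨r, hr⟩ : ∃ r, r = n - 3 - 2 * b - T := ⟨_, rfl⟩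
  refine ⟨Vx D b r, inferInstance, G D b r, ?_, pathPairable ?_, ?_, ?_⟩
  · rw [card_vx, ← hT]; omega
  · rw [← hT]; omega
  · have := card_edges (D := D) (b := b) (r := r)
    rw [← hT] at this
    omega
  · have := diam_ge (D := D) (b := b) (r := r)
    omega

/-- **Theorem.** There is no function `f` such that for every `ε > 0` all path-pairable graphs with
`n` vertices and at most `(2 - ε) n` edges have diameter at most `f ε`. Moreover for every `D` there is
a constant `C` such that for every even `n ≥ C` there is a path-pairable graph with `n` vertices, at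
most `5 n / 3 + C` edges and diameter at least `D`. -/
theorem result :
    (¬ ∃ f : ℝ → ℕ, ∀ ε : ℝ, 0 < ε → ∀ (V : Type) [Fintype V] (G : SimpleGraph V),
      Even (Fintype.card V) → PathPairable G →
      (G.edgeSet.ncard : ℝ) ≤ (2 - ε) * Fintype.card V → G.diam ≤ f ε) ∧
    ∀ D : ℕ, ∃ C : ℕ, ∀ n : ℕ, C ≤ n → Even n →
      ∃ (V : Type) (_ : Fintype V) (G : SimpleGraph V), Fintype.card V = n ∧ PathPairable G ∧
        (G.edgeSet.ncard : ℝ) ≤ 5 / 3 * n + C ∧ D ≤ G.diam := by
  refine ⟨?_, fun D => ?_⟩
  · rintro ⟨f, hf⟩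
    obtain ⟨C, hC⟩ := sparse (f (1 / 6) + 1)
    obtain ⟨V, hV, G, h1, h2, h3, h4⟩ := hC (2 * C + 2) (by omega) ⟨C + 1, by ring⟩
    have h5 := hf (1 / 6) (by norm_num) V G (by rw [h1]; exact ⟨C + 1, by ring⟩) h2 (by
      rw [h1]
      have h6 : (3 : ℝ) * (G.edgeSet.ncard : ℝ) ≤ 5 * ((2 * C + 2 : ℕ) : ℝ) + C := by
        exact_mod_cast h3
      push_cast at h6 ⊢
      linarith)
    omega
  · obtain ⟨C, hC⟩ := sparse D
    refine ⟨C, fun n hn he => ?_⟩
    obtain ⟨V, hV, G, h1, h2, h3, h4⟩ := hC n hn he
    refine ⟨V, hV, G, h1, h2, ?_, h4⟩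
    have h6 : (3 : ℝ) * (G.edgeSet.ncard : ℝ) ≤ 5 * (n : ℝ) + C := by exact_mod_cast h3
    have h7 : (0 : ℝ) ≤ C := Nat.cast_nonneg C
    linarith

end Pool.Agent.Results.MP_74cbe5_co.UnboundedDiameter
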